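import Mathlib

/-!
# Kotzig's question on strong regularity of self-complementary graphs: both directions fail

For a self-complementary graph `G` let `F(G)` be the set of vertices fixed by some isomorphism from
`G` onto its complement, and `N(G)` the set of edges `uv` such that some isomorphism from `G` onto its
complement maps `u` to `v` or `v` to `u`.

* The lexicographic product `C5[C5]` is regular and self-complementary with `F(G) = V(G)` and
  `N(G) = E(G)`, but it is not strongly regular: the affine maps `(x, y) ↦ (2 x + s, 2 y + t)` are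
  isomorphisms onto the complement and map any vertex to any vertex.
* There is a self-complementary strongly regular graph on `45` vertices for which all isomorphisms
  onto the complement fix the same vertex `v`. Thus `F(G) = {v}`, and no edge at `v` is in `N(G)`.
  The graph was found by a computer search among the graphs for which a permutation with cycles of
  lengths `1`, `24`, `12`, `8` is an isomorphism onto the complement; the vertex `v` is the only
  vertex of the complement lying in `152` complete subgraphs with four vertices.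
-/

set_option autoImplicit false

namespace Pool.Agent.Results.MP_a93e77_co.KotzigBothFail

open Finset

/-- the set of vertices fixed by some isomorphism from `G` onto its complement -/
def F {V : Type} (G : SimpleGraph V) : Set V := {v | ∃ P : G ≃g Gᶜ, P v = v}

/-- the set of edges `uv` of `G` such that `u` and `v` are consecutive in a cycle of some isomorphism
from `G` onto its complement -/
def N {V : Type} (G : SimpleGraph V) : Set (Sym2 V) :=
  {e | ∃ u v, e = s(u, v) ∧ G.Adj u v ∧ ∃ P : G ≃g Gᶜ, P u = v ∨ P v = u}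

/-- `G` is regular -/
def Regular {V : Type} (G : SimpleGraph V) : Prop := ∃ k, ∀ v, (G.neighborSet v).ncard = k

/-- `G` is strongly regular: regular, any two adjacent vertices have the same number of common
neighbours, and any two distinct nonadjacent vertices have the same number of common neighbours -/
def StronglyRegular {V : Type} (G : SimpleGraph V) : Prop :=
  Regular G ∧ (∃ l, ∀ u v, G.Adj u v → (G.commonNeighbors u v).ncard = l) ∧
    ∃ m, ∀ u v, u ≠ v → ¬ G.Adj u v → (G.commonNeighbors u v).ncard = m

/-! ### The lexicographic product of two pentagons -/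

/-- adjacency in the pentagon -/
def pent (a b : Fin 5) : Prop := b = a + 1 ∨ b = a + 4

instance (a b : Fin 5) : Decidable (pent a b) := by unfold pent; infer_instance

/-- `C5[C5]` -/
def lex : SimpleGraph (Fin 5 × Fin 5) where
  Adj u v := pent u.1 v.1 ∨ (u.1 = v.1 ∧ pent u.2 v.2)
  symm := ⟨by decide⟩
  loopless := ⟨by decide⟩

instance : DecidableRel lex.Adj := fun u v => by
  unfold lex
  infer_instance

/-- the map `x ↦ 2 x + s` -/
def aff (s : Fin 5) : Fin 5 ≃ Fin 5 where
  toFun x := 2 * x + s
  invFun x := 3 * (x - s)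
  left_inv := by revert s; decide
  right_inv := by revert s; decide

theorem pent_aff (s a b : Fin 5) (h : a ≠ b) : pent (aff s a) (aff s b) ↔ ¬ pent a b := by
  revert s a b; decide

theorem pent_irrefl (a : Fin 5) : ¬ pent a a := by revert a; decide

/-- an isomorphism onto the complement -/
def anti (s t : Fin 5) : lex ≃g lexᶜ where
  toEquiv := Equiv.prodCongr (aff s) (aff t)
  map_rel_iff' := by
    rintro ⟨a, b⟩ ⟨c, d⟩
    rw [SimpleGraph.compl_adj]
    change (aff s a, aff t b) ≠ (aff s c, aff t d) ∧
      ¬ (pent (aff s a) (aff s c) ∨ (aff s a = aff s c ∧ pent (aff t b) (aff t d))) ↔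
      (pent a c ∨ (a = c ∧ pent b d))
    by_cases hac : a = c
    · subst hac
      by_cases hbd : b = d
      · subst hbd
        simp [pent_irrefl]
      · have h1 := pent_aff t b d hbd
        simp only [pent_irrefl, Ne, Prod.mk.injEq, true_and, false_or, h1, not_not,
          EmbeddingLike.apply_eq_iff_eq, hbd, not_false_eq_true]
    · have h1 := pent_aff s a c hac
      have h2 : aff s a ≠ aff s c := fun h => hac ((aff s).injective h)
      simp only [Ne, Prod.mk.injEq, h2, false_and, not_false_eq_true, true_and, or_false, h1, not_not,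
        hac]

theorem anti_apply (u v : Fin 5 × Fin 5) : ∃ P : lex ≃g lexᶜ, P u = v := by
  refine ⟨anti (v.1 - 2 * u.1) (v.2 - 2 * u.2), ?_⟩
  change (2 * u.1 + (v.1 - 2 * u.1), 2 * u.2 + (v.2 - 2 * u.2)) = v
  have h : ∀ a b : Fin 5, 2 * a + (b - 2 * a) = b := by decide
  rw [h, h]

theorem ncard_eq {V : Type} [Fintype V] (s : Set V) [DecidablePred (· ∈ s)] :
    s.ncard = (univ.filter (· ∈ s)).card := by
  rw [← Set.ncard_coe_finset]
  congr 1
  ext x
  simp

theorem lex_regular : Regular lex := by
  have h : ∀ v, (univ.filter fun w => lex.Adj v w).card = 12 := by decide +kernel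
  refine ⟨12, fun v => ?_⟩
  have e : lex.neighborSet v = {w | lex.Adj v w} := rfl
  rw [e, ncard_eq]
  exact h v

theorem lex_not : ¬ StronglyRegular lex := by
  rintro ⟨-, -, m, hm⟩
  have h1 := hm (0, 0) (0, 2) (by decide) (by decide)
  have h2 := hm (0, 0) (2, 0) (by decide) (by decide)
  have e : ∀ u v, lex.commonNeighbors u v = {w | lex.Adj u w ∧ lex.Adj v w} := fun u v => rfl
  rw [e, ncard_eq] at h1 h2
  simp only [Set.mem_ofPred_eq] at h1 h2
  have h3 : (univ.filter fun w => lex.Adj (0, 0) w ∧ lex.Adj (0, 2) w).card = 11 := by decide +kernel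
  have h4 : (univ.filter fun w => lex.Adj (0, 0) w ∧ lex.Adj (2, 0) w).card = 5 := by decide +kernel
  rw [h3] at h1
  rw [h4] at h2
  omega

theorem lex_N : N lex = lex.edgeSet := by
  ext e
  constructor
  · rintro ⟨u, v, rfl, h, -⟩
    exact h
  · intro he
    induction e with
    | _ u v =>
      obtain ⟨P, hP⟩ := anti_apply u v
      exact ⟨u, v, rfl, he, P, Or.inl hP⟩

/-! ### The graph with 45 vertices -/

/-- the rows of the adjacency matrix, in base two -/
def row (i : ℕ) : ℕ :=
  [11773925829290, 16729089873953, 1863631294392, 31594548453509, 7179647270628,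
    20825077547543, 28718589082512, 12931566012509, 9321273617988, 16679263805813,
    1825878030612, 31532616025559, 7166073168978, 20852259297113, 28664225567052,
    13040259456359, 9241258509618, 16701888492953, 1918000239822, 31485810038369,
    7259684098878, 20802407192963, 28626486643962, 12978357102089, 9227641107438,
    32782710619426, 4803255829945, 25715131610254, 18800807122657, 32766593061436,
    4697078913925, 25788100331764, 18788214992407, 32783690703826, 4784149346395,
    25719152611144, 18724280525167, 24225917120303, 21504626631072, 26672329702589,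
    15787134191238, 1548485849843, 27689353878042, 6056504445899, 5479210707048].getD i 0

/-- adjacency -/
def adjB (i j : ℕ) : Bool := (row i).testBit j

/-- the graph -/
def G45 : SimpleGraph (Fin 45) where
  Adj i j := adjB i j = true
  symm := ⟨by decide +kernel⟩
  loopless := ⟨by decide +kernel⟩

/-- the permutation with cycles `(0)`, `(1 … 24)`, `(25 … 36)`, `(37 … 44)` -/
def sg (i : Fin 45) : Fin 45 :=
  if i = 0 then 0 else if i = 24 then 1 else if i = 36 then 25 else if i = 44 then 37 else i + 1

/-- the inverse permutation -/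
def sgi (i : Fin 45) : Fin 45 :=
  if i = 0 then 0 else if i = 1 then 24 else if i = 25 then 36 else if i = 37 then 44 else i - 1

/-- the isomorphism of `G45` onto its complement -/
def P45 : G45 ≃g G45ᶜ where
  toFun := sg
  invFun := sgi
  left_inv := by unfold Function.LeftInverse; decide +kernel
  right_inv := by unfold Function.RightInverse Function.LeftInverse; decide +kernel
  map_rel_iff' := by
    intro a b
    rw [SimpleGraph.compl_adj]
    change (sg a ≠ sg b ∧ ¬ (adjB (sg a) (sg b) = true)) ↔ adjB a b = true
    revert a b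
    decide +kernel

/-- `f 0 + … + f (n - 1)` -/
def sumTo : ℕ → (ℕ → ℕ) → ℕ
  | 0, _ => 0
  | n + 1, f => sumTo n f + f n

theorem sumTo_eq (n : ℕ) (f : ℕ → ℕ) : sumTo n f = ∑ i : Fin n, f i := by
  rw [Fin.sum_univ_eq_sum_range]
  induction n with
  | zero => rfl
  | succ n ih => rw [sum_range_succ, ← ih]; rfl

/-- the number of the lowest 45 bits of `x` equal to `1` -/
def pop (x : ℕ) : ℕ := sumTo 45 fun k => cond (x.testBit k) 1 0

theorem pop_eq (x : ℕ) : pop x = (univ.filter fun k : Fin 45 => x.testBit k = true).card := by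
  rw [pop, sumTo_eq, card_filter]
  refine sum_congr rfl fun k _ => ?_
  cases x.testBit k <;> rfl

theorem deg45 (v : Fin 45) : (G45.neighborSet v).ncard = 22 := by
  have h : ∀ v : Fin 45, pop (row v) = 22 := by decide +kernel
  have e : G45.neighborSet v = {w : Fin 45 | (row v).testBit w = true} := rfl
  rw [e, ncard_eq, ← h v, pop_eq]
  rfl

theorem common45 (u v : Fin 45) : (G45.commonNeighbors u v).ncard = pop (row u &&& row v) := by
  have e : G45.commonNeighbors u v = {w : Fin 45 | (row u &&& row v).testBit w = true} := by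
    ext w
    rw [Set.mem_ofPred_eq, Nat.testBit_and, Bool.and_eq_true]
    rfl
  rw [e, ncard_eq, pop_eq]
  rfl

theorem sr45 : StronglyRegular G45 := by
  refine ⟨⟨22, deg45⟩, ⟨10, fun u v h => ?_⟩, 11, fun u v h1 h2 => ?_⟩
  · rw [common45]
    change adjB u v = true at h
    revert u v
    decide +kernel
  · rw [common45]
    change ¬ (adjB u v = true) at h2
    revert u v
    decide +kernel

open Classical in
/-- the number of ordered triples completing `v` to a complete subgraph with four vertices -/
noncomputable def K {V : Type} [Fintype V] (H : SimpleGraph V) (v : V) : ℕ :=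
  ∑ a, ∑ b, ∑ c, if H.Adj v a ∧ (H.Adj v b ∧ H.Adj a b) ∧ (H.Adj v c ∧ H.Adj a c) ∧ H.Adj b c
    then 1 else 0

theorem K_iso {V : Type} [Fintype V] {H H' : SimpleGraph V} (e : H ≃g H') (v : V) :
    K H' (e v) = K H v := by
  unfold K
  rw [← Equiv.sum_comp e.toEquiv]
  refine sum_congr rfl fun a _ => ?_
  rw [← Equiv.sum_comp e.toEquiv]
  refine sum_congr rfl fun b _ => ?_
  rw [← Equiv.sum_comp e.toEquiv]
  refine sum_congr rfl fun c _ => ?_
  have h : ∀ x y, H'.Adj (e x) (e y) ↔ H.Adj x y := fun x y => e.map_adj_iff
  have key : (H'.Adj (e v) (e a) ∧ (H'.Adj (e v) (e b) ∧ H'.Adj (e a) (e b)) ∧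
      (H'.Adj (e v) (e c) ∧ H'.Adj (e a) (e c)) ∧ H'.Adj (e b) (e c)) ↔
      (H.Adj v a ∧ (H.Adj v b ∧ H.Adj a b) ∧ (H.Adj v c ∧ H.Adj a c) ∧ H.Adj b c) := by
    rw [h, h, h, h, h, h]
  by_cases hp : H.Adj v a ∧ (H.Adj v b ∧ H.Adj a b) ∧ (H.Adj v c ∧ H.Adj a c) ∧ H.Adj b c
  · rw [if_pos hp]
    exact if_pos (key.2 hp)
  · rw [if_neg hp]
    exact if_neg fun h' => hp (key.1 h')

/-- `K` computed from the rows -/
def T (r : ℕ → ℕ) (v : ℕ) : ℕ :=
  sumTo 45 fun a => cond ((r v).testBit a)
    (sumTo 45 fun b => cond ((r v &&& r a).testBit b) (pop (r v &&& r a &&& r b)) 0) 0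

theorem K_eq (H : SimpleGraph (Fin 45)) (r : ℕ → ℕ)
    (hr : ∀ i j : Fin 45, H.Adj i j ↔ (r i).testBit j = true) (v : Fin 45) : K H v = T r v := by
  unfold K T
  rw [sumTo_eq]
  refine sum_congr rfl fun a _ => ?_
  by_cases ha : (r v).testBit a = true
  · rw [ha, cond_true, sumTo_eq]
    refine sum_congr rfl fun b _ => ?_
    by_cases hb : (r v &&& r a).testBit b = true
    · rw [hb, cond_true, pop, sumTo_eq]
      refine sum_congr rfl fun c _ => ?_
      rw [Nat.testBit_and, Bool.and_eq_true] at hb
      simp only [hr, ha, hb.1, hb.2, true_and]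
      rw [Nat.testBit_and, Nat.testBit_and]
      cases (r v).testBit c <;> cases (r a).testBit c <;> cases (r b).testBit c <;> simp
    · have hb' : (r v &&& r a).testBit b = false := by simpa using hb
      rw [hb', cond_false]
      refine sum_eq_zero fun c _ => if_neg ?_
      rintro ⟨-, ⟨h1, h2⟩, -⟩
      apply hb
      rw [Nat.testBit_and, Bool.and_eq_true]
      exact ⟨(hr _ _).1 h1, (hr _ _).1 h2⟩
  · have ha' : (r v).testBit a = false := by simpa using ha
    rw [ha', cond_false]
    refine sum_eq_zero fun b _ => sum_eq_zero fun c _ => if_neg ?_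
    rintro ⟨h1, -⟩
    exact ha ((hr _ _).1 h1)

/-- the rows of the complement -/
def rowc (i : ℕ) : ℕ := (2 ^ 45 - 1) ^^^ (2 ^ i) ^^^ row i

theorem compl_adj (i j : Fin 45) : G45ᶜ.Adj i j ↔ (rowc i).testBit j = true := by
  rw [SimpleGraph.compl_adj]
  change (i ≠ j ∧ ¬ ((row i).testBit j = true)) ↔ _
  revert i j
  decide +kernel

theorem T_zero : T row 0 = 912 := by decide +kernel

theorem T_compl : ∀ v : Fin 45, T rowc v = 912 → v = 0 := by decide +kernel

/-- every isomorphism onto the complement fixes the vertex `0` -/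
theorem fixes (P : G45 ≃g G45ᶜ) : P 0 = 0 := by
  have h1 := K_iso P 0
  rw [K_eq G45ᶜ rowc compl_adj, K_eq G45 row (fun i j => Iff.rfl)] at h1
  have h2 : T row ((0 : Fin 45) : ℕ) = 912 := T_zero
  rw [h2] at h1
  exact T_compl _ h1

theorem F45 : F G45 = {0} := by
  ext v
  constructor
  · rintro ⟨P, hP⟩
    by_contra hv
    have hv' : v ≠ 0 := hv
    have h0 := fixes P
    have h : G45ᶜ.Adj (P v) (P 0) ↔ G45.Adj v 0 := P.map_adj_iff
    rw [hP, h0, SimpleGraph.compl_adj] at h
    by_cases ha : G45.Adj v 0
    · exact (h.2 ha).2 ha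
    · exact ha (h.1 ⟨hv', ha⟩)
  · rintro rfl
    exact ⟨P45, fixes P45⟩

theorem N45 (e : Sym2 (Fin 45)) (he : e ∈ N G45) : (0 : Fin 45) ∉ e := by
  obtain ⟨u, v, rfl, hadj, P, hP⟩ := he
  intro h0
  rw [Sym2.mem_iff] at h0
  have hne := hadj.ne
  have hf := fixes P
  rcases h0 with rfl | rfl
  · rcases hP with hP | hP
    · exact hne (hf.symm.trans hP)
    · exact hne (P.injective (hf.trans hP.symm))
  · rcases hP with hP | hP
    · exact hne (P.injective (hP.trans hf.symm))
    · exact hne (hP.symm.trans hf)

/-- **Both directions of Kotzig's question fail.** There is a regular self-complementary graph (on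
`25` vertices) with `F(G) = V(G)` and `N(G) = E(G)` that is not strongly regular, and there is a
strongly regular self-complementary graph (on `45` vertices) such that `F(G)` consists of a single
vertex `v`, `N(G)` contains no edge at `v`, and `N(G) ≠ E(G)`. -/
theorem result :
    (∃ G : SimpleGraph (Fin 5 × Fin 5), Regular G ∧ Nonempty (G ≃g Gᶜ) ∧
      F G = Set.univ ∧ N G = G.edgeSet ∧ ¬ StronglyRegular G) ∧
    (∃ G : SimpleGraph (Fin 45), StronglyRegular G ∧ Nonempty (G ≃g Gᶜ) ∧
      ∃ v, F G = {v} ∧ (∀ e ∈ N G, v ∉ e) ∧ N G ≠ G.edgeSet) := by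
  refine ⟨⟨lex, lex_regular, ⟨anti 0 0⟩, ?_, lex_N, lex_not⟩,
    ⟨G45, sr45, ⟨P45⟩, 0, F45, N45, ?_⟩⟩
  · ext v
    simp only [Set.mem_univ, iff_true]
    exact anti_apply v v
  · intro h
    obtain ⟨w, hw⟩ : ∃ w, G45.Adj 0 w := by
      change ∃ w : Fin 45, adjB 0 w = true
      decide +kernel
    have h1 : s((0 : Fin 45), w) ∈ N G45 := by
      rw [h]
      exact hw
    exact N45 _ h1 (Sym2.mem_mk_left _ _)

end Pool.Agent.Results.MP_a93e77_co.KotzigBothFail
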